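import Mathlib
import Pool.Agent.Q43.WP.Turan

set_option autoImplicit false

/-!
# Near-Wilson primes for almost all shifts
-/

namespace Pool.Agent.Results.MP_de5eaa_nt.AlmostAllShifts

open Finset

/-- `p` is a near-Wilson prime with the shift `t`: `p` is prime and
`(p - 1)! ≡ -1 - t p` modulo `p ^ 2` -/
def NearWilson (t : ℤ) (p : ℕ) : Prop :=
  p.Prime ∧ (p : ℤ) ^ 2 ∣ ((p - 1).factorial : ℤ) + 1 + t * p

/-- the number of the near-Wilson primes `p ≤ x` with the shift `t` -/
noncomputable def count (t : ℤ) (x : ℕ) : ℕ := by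
  classical exact ((Icc 1 x).filter fun p => NearWilson t p).card

/-- (1) The shift `0` gives the Wilson primes.  (2) In every interval of `T` consecutive shifts `t` the
number of the near-Wilson primes `p ≤ T` with the shift `t` differs on average from `log log T` by at
most `C √(log log T)`.  (3) Hence it differs from `log log T` by more than `s √(log log T)` for at most
`C T / s` of these `T` shifts. -/
theorem result :
    (∀ p : ℕ, NearWilson 0 p ↔ p.Prime ∧ p ^ 2 ∣ (p - 1).factorial + 1) ∧
    ∃ C : ℝ, 0 < C ∧ ∀ (A : ℤ) (T : ℕ), 16 ≤ T →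
      (∑ t ∈ Ioc A (A + T), |(count t T : ℝ) - Real.log (Real.log T)| ≤
        C * T * √(Real.log (Real.log T))) ∧
      ∀ s : ℝ, 0 < s → ((((Ioc A (A + T)).filter fun t : ℤ =>
        s * √(Real.log (Real.log T)) < |(count t T : ℝ) - Real.log (Real.log T)|).card : ℝ)) ≤
          C * T / s := by
  classical
  refine ⟨fun p => ?_, ?_⟩
  · unfold NearWilson
    rw [zero_mul, add_zero]
    constructor
    · rintro ⟨hp, h⟩
      refine ⟨hp, ?_⟩
      have : ((p ^ 2 : ℕ) : ℤ) ∣ (((p - 1).factorial + 1 : ℕ) : ℤ) := by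
        push_cast
        exact h
      exact_mod_cast this
    · rintro ⟨hp, h⟩
      refine ⟨hp, ?_⟩
      have : ((p ^ 2 : ℕ) : ℤ) ∣ (((p - 1).factorial + 1 : ℕ) : ℤ) := by exact_mod_cast h
      push_cast at this
      exact this
  · obtain ⟨C, hC, h⟩ := Pool.Agent.Q43.WP.law
    -- the Wilson quotients
    set c : ℕ → ℤ := fun p => -((((p - 1).factorial : ℤ) + 1) / p) with hc
    have hw : ∀ (t : ℤ) (p : ℕ), p.Prime → ((p : ℤ) ^ 2 ∣ ((p - 1).factorial : ℤ) + 1 + t * p ↔
        t ≡ c p [ZMOD p]) := by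
      intro t p hp
      haveI : Fact p.Prime := ⟨hp⟩
      have hp0 : (p : ℤ) ≠ 0 := by exact_mod_cast hp.ne_zero
      have h1 : (p : ℤ) ∣ ((p - 1).factorial : ℤ) + 1 := by
        rw [← ZMod.intCast_zmod_eq_zero_iff_dvd]
        push_cast
        rw [ZMod.wilsons_lemma]
        ring
      obtain ⟨w, hw⟩ := h1
      have e : c p = -w := by
        rw [hc]
        simp only
        rw [hw, Int.mul_ediv_cancel_left _ hp0]
      rw [e, hw, Int.modEq_iff_dvd, pow_two, show (p : ℤ) * w + t * p = p * (w + t) by ring,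
        mul_dvd_mul_iff_left hp0, show -w - t = -(w + t) by ring, dvd_neg]
    have e : ∀ (t : ℤ) (T : ℕ), count t T = Pool.Agent.Q43.WP.cl c ((Icc 1 T).filter Nat.Prime) t := by
      intro t T
      unfold count Pool.Agent.Q43.WP.cl NearWilson
      rw [filter_filter]
      congr 1
      ext p
      simp only [mem_filter]
      constructor
      · rintro ⟨g1, g2, g3⟩
        exact ⟨g1, g2, (hw t p g2).1 g3⟩
      · rintro ⟨g1, g2, g3⟩
        exact ⟨g1, g2, (hw t p g2).2 g3⟩
    refine ⟨C, hC, fun A T hT => ?_⟩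
    have h1 : ∑ t ∈ Ioc A (A + T), |(count t T : ℝ) - Real.log (Real.log T)| ≤
        C * T * √(Real.log (Real.log T)) := by
      simp only [e]
      exact h c A T hT
    refine ⟨h1, fun s hs => ?_⟩
    have hT16 : (16 : ℝ) ≤ T := by exact_mod_cast hT
    have hL : 0 < Real.log (Real.log T) := by
      have h1 : Real.log 16 ≤ Real.log T := Real.log_le_log (by norm_num) hT16
      have e : Real.log 16 = 4 * Real.log 2 := by
        rw [show (16 : ℝ) = 2 ^ 4 by norm_num, Real.log_pow]; norm_num
      have h2 := Real.log_two_gt_d9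
      exact Real.log_pos (by linarith)
    have hsL : 0 < √(Real.log (Real.log T)) := Real.sqrt_pos.2 hL
    set B := (Ioc A (A + T)).filter fun t : ℤ =>
        s * √(Real.log (Real.log T)) < |(count t T : ℝ) - Real.log (Real.log T)| with hB
    have h2 : (B.card : ℝ) * (s * √(Real.log (Real.log T))) ≤
        ∑ t ∈ Ioc A (A + T), |(count t T : ℝ) - Real.log (Real.log T)| := by
      rw [← nsmul_eq_mul]
      calc B.card • (s * √(Real.log (Real.log T))) ≤
          ∑ t ∈ B, |(count t T : ℝ) - Real.log (Real.log T)| :=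
            Finset.card_nsmul_le_sum _ _ _ fun t ht => (mem_filter.1 ht).2.le
        _ ≤ _ := Finset.sum_le_sum_of_subset_of_nonneg (filter_subset _ _) fun _ _ _ => abs_nonneg _
    have h3 := h2.trans h1
    rw [le_div_iff₀ hs]
    have h4 : (B.card : ℝ) * s * √(Real.log (Real.log T)) ≤ C * T * √(Real.log (Real.log T)) := by
      linarith
    exact le_of_mul_le_mul_right h4 hsL

end Pool.Agent.Results.MP_de5eaa_nt.AlmostAllShifts
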