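import Mathlib
import Pool.Agent.Q43.WP.Main

set_option autoImplicit false

/-!
# Infinitely many primes are not Wilson primes of order `n`, for all but at most one `n`
-/

namespace Pool.Agent.Results.MP_de5eaa_nt.AtMostOneOrder

open Finset

/-- `p` is a Wilson prime of order `n`: `p` is prime, `1 ≤ n ≤ p` and
`(n - 1)! (p - n)! ≡ (-1) ^ n` modulo `p ^ 2`.  The Wilson primes of order one are the Wilson primes. -/
def WilsonOrder (n p : ℕ) : Prop := p.Prime ∧ 1 ≤ n ∧ n ≤ p ∧
  ((p : ℤ) ^ 2 ∣ ((n - 1).factorial * (p - n).factorial : ℤ) - (-1) ^ n)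

/-- the number of the primes up to `x` -/
noncomputable def primes (x : ℕ) : ℕ := ((Icc 1 x).filter Nat.Prime).card

/-- the number of the Wilson primes of order `n` up to `x` -/
noncomputable def count (n x : ℕ) : ℕ := by
  classical exact ((Icc 1 x).filter fun p => WilsonOrder n p).card

lemma iff_ord (n p : ℕ) : WilsonOrder n p ↔ Pool.Agent.Q43.WP.IsOrd 1 n p := by
  unfold WilsonOrder Pool.Agent.Q43.WP.IsOrd
  rw [mul_one]

/-- (1) For `n < m` at most `m - n - 1` primes larger than `m` are Wilson primes of both orders.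
(2) For every finite set `F` of orders the sum over `n ∈ F` of the numbers of the Wilson primes of order
`n` up to `x` is at most the number of all primes up to `x`, plus a constant.
(3) For all orders `n ≥ 1` but at most one there are infinitely many primes which are not Wilson primes
of order `n`. -/
theorem result :
    (∀ n m : ℕ, n < m → {p : ℕ | m < p ∧ WilsonOrder n p ∧ WilsonOrder m p}.Finite ∧
      {p : ℕ | m < p ∧ WilsonOrder n p ∧ WilsonOrder m p}.ncard ≤ m - n - 1) ∧
    (∀ F : Finset ℕ, ∃ C : ℕ, ∀ x : ℕ, ∑ n ∈ F, count n x ≤ primes x + C) ∧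
    ∃ n0 : ℕ, ∀ n : ℕ, 1 ≤ n → n ≠ n0 → {p : ℕ | p.Prime ∧ n ≤ p ∧ ¬ WilsonOrder n p}.Infinite := by
  classical
  have h1 : ∀ n m : ℕ, n < m → {p : ℕ | m < p ∧ WilsonOrder n p ∧ WilsonOrder m p}.Finite ∧
      {p : ℕ | m < p ∧ WilsonOrder n p ∧ WilsonOrder m p}.ncard ≤ m - n - 1 := by
    intro n m h
    have key : ∀ S : Finset ℕ, (S : Set ℕ) ⊆ {p : ℕ | m < p ∧ WilsonOrder n p ∧ WilsonOrder m p} →
        S.card ≤ m - n - 1 := by
      intro S hS
      refine Pool.Agent.Q43.WP.common (l := 1) h S fun p hp => ?_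
      obtain ⟨g1, g2, g3⟩ := hS hp
      exact ⟨g1, (iff_ord n p).1 g2, (iff_ord m p).1 g3⟩
    have hfin : {p : ℕ | m < p ∧ WilsonOrder n p ∧ WilsonOrder m p}.Finite := by
      by_contra hinf
      obtain ⟨S, hS1, hS2⟩ := (show Set.Infinite _ from hinf).exists_subset_card_eq (m - n - 1 + 1)
      have := key S hS1
      omega
    refine ⟨hfin, ?_⟩
    rw [Set.ncard_eq_toFinset_card _ hfin]
    exact key _ (by simp)
  have hpair : ∀ n m : ℕ, n ≠ m → {p : ℕ | WilsonOrder n p ∧ WilsonOrder m p}.Finite := by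
    have hlt : ∀ n m : ℕ, n < m → {p : ℕ | WilsonOrder n p ∧ WilsonOrder m p}.Finite := by
      intro n m h
      refine ((h1 n m h).1.union (Set.finite_le_nat m)).subset fun p hp => ?_
      rcases lt_or_ge m p with h2 | h2
      · exact Or.inl ⟨h2, hp.1, hp.2⟩
      · exact Or.inr h2
    intro n m h
    rcases lt_or_gt_of_ne h with h2 | h2
    · exact hlt n m h2
    · exact (hlt m n h2).subset fun p hp => ⟨hp.2, hp.1⟩
  refine ⟨h1, fun F => ?_, ?_⟩
  · -- the exceptional primes
    have hB : (⋃ q ∈ ((F ×ˢ F).filter fun q => q.1 ≠ q.2),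
        {p : ℕ | WilsonOrder q.1 p ∧ WilsonOrder q.2 p}).Finite := by
      refine Set.Finite.biUnion (Finset.finite_toSet _) fun q hq => ?_
      exact hpair q.1 q.2 (mem_filter.1 hq).2
    set B := hB.toFinset with hBd
    refine ⟨F.card * B.card, fun x => ?_⟩
    have e1 : ∑ n ∈ F, count n x = ∑ p ∈ (Icc 1 x).filter Nat.Prime,
        (F.filter fun n => WilsonOrder n p).card := by
      have e2 : ∀ n ∈ F, count n x = (((Icc 1 x).filter Nat.Prime).filter
          (fun p => WilsonOrder n p)).card := by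
        intro n _
        unfold count
        congr 1
        ext p
        simp only [mem_filter]
        exact ⟨fun h => ⟨⟨h.1, h.2.1⟩, h.2⟩, fun h => ⟨h.1.1, h.2⟩⟩
      rw [Finset.sum_congr rfl e2]
      simp only [Finset.card_filter]
      exact Finset.sum_comm
    rw [e1]
    have h3 : ∀ p ∈ (Icc 1 x).filter Nat.Prime, (F.filter fun n => WilsonOrder n p).card ≤
        1 + if p ∈ B then F.card else 0 := by
      intro p _
      by_cases hp : p ∈ B
      · rw [if_pos hp]
        exact (card_filter_le _ _).trans (Nat.le_add_left _ _)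
      · rw [if_neg hp, add_zero]
        refine Finset.card_le_one.2 fun a ha b hb => ?_
        by_contra hab
        refine hp ?_
        rw [hBd, Set.Finite.mem_toFinset]
        rw [mem_filter] at ha hb
        simp only [Set.mem_iUnion]
        exact ⟨(a, b), mem_filter.2 ⟨mem_product.2 ⟨ha.1, hb.1⟩, hab⟩, ha.2, hb.2⟩
    refine (Finset.sum_le_sum h3).trans ?_
    rw [Finset.sum_add_distrib, Finset.sum_const, smul_eq_mul, mul_one]
    refine Nat.add_le_add_left ?_ _
    rw [← Finset.sum_filter, Finset.sum_const, smul_eq_mul, mul_comm]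
    refine Nat.mul_le_mul_left _ (card_le_card fun p hp => (mem_filter.1 hp).2)
  · by_contra hcon
    push Not at hcon
    obtain ⟨n, hn1, hn0, hnf⟩ := hcon 0
    obtain ⟨m, hm1, hmn, hmf⟩ := hcon n
    have hfin : {p : ℕ | p.Prime}.Finite := by
      refine (((hnf.union hmf).union (hpair n m (Ne.symm hmn))).union
        (Set.finite_lt_nat (n + m))).subset fun p hp => ?_
      by_cases hlt : p < n + m
      · exact Or.inr hlt
      · left
        by_cases g1 : WilsonOrder n p
        · by_cases g2 : WilsonOrder m p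
          · exact Or.inr ⟨g1, g2⟩
          · exact Or.inl (Or.inr ⟨hp, by omega, g2⟩)
        · exact Or.inl (Or.inl ⟨hp, by omega, g1⟩)
    exact Nat.infinite_setOfPred_prime hfin

end Pool.Agent.Results.MP_de5eaa_nt.AtMostOneOrder
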