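import Mathlib
import Pool.Agent.Q43.WP.Main

set_option autoImplicit false

/-!
# The values of `(-1) ^ n (n - 1)! (p - n)!` modulo `p ^ 2`
-/

namespace Pool.Agent.Results.MP_de5eaa_nt.OrdersOfOnePrime

open Finset

/-- `(-1) ^ n (n - 1)! (p - n)!`; it is `≡ 1` modulo `p`, and for `n = 1` it is `-(p - 1)!`. -/
def W (p n : ℕ) : ℤ := (-1) ^ n * ((n - 1).factorial * (p - n).factorial : ℕ)

/-- Let `p` be a prime and `(M, M + N]` an interval of `[1, p]`.  Every value `l` modulo `p ^ 2` is taken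
by `W p n` for at most `1 + 3/2 N ^ (2 / 3)` of the `n` of the interval.  In particular (`l = 1`) `p` is a
Wilson prime of at most that many orders `n` of the interval, `W p n` takes at least
`N / (1 + 3/2 N ^ (2 / 3))` values modulo `p ^ 2` on the interval, and `p` is a Wilson prime if and only
if `W p 1 ≡ 1`. -/
theorem result (p : ℕ) (hp : p.Prime) :
    (p ^ 2 ∣ (p - 1).factorial + 1 ↔ ((p : ℤ) ^ 2 ∣ W p 1 - 1)) ∧
    (∀ n : ℕ, 1 ≤ n → n ≤ p → (p : ℤ) ∣ W p n - 1) ∧
    ∀ M N : ℕ, M + N ≤ p →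
      (∀ l : ℤ, (((Ioc M (M + N)).filter fun n => ((p : ℤ) ^ 2 ∣ W p n - l)).card : ℝ) ≤
        1 + 3 / 2 * (N : ℝ) ^ (2 / 3 : ℝ)) ∧
      (N : ℝ) / (1 + 3 / 2 * (N : ℝ) ^ (2 / 3 : ℝ)) ≤
        (((Ioc M (M + N)).image fun n => ((W p n : ℤ) : ZMod (p ^ 2))).card : ℝ) := by
  classical
  have hW : ∀ n : ℕ, 1 ≤ n → n ≤ p → ∀ l : ℤ, (p : ℤ) ^ 2 ∣ W p n - l →
      Pool.Agent.Q43.WP.IsOrd l n p := by
    intro n hn hnp l h
    refine ⟨hp, hn, hnp, ?_⟩
    have e : ((n - 1).factorial * (p - n).factorial : ℤ) - (-1) ^ n * l = (-1) ^ n * (W p n - l) := by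
      unfold W
      have h1 : ((-1 : ℤ)) ^ n * (-1) ^ n = 1 := by rw [← mul_pow]; simp
      push_cast
      rw [mul_sub, ← mul_assoc, h1, one_mul]
    rw [e]
    exact Dvd.dvd.mul_left h _
  have hcount : ∀ M N : ℕ, M + N ≤ p → ∀ l : ℤ,
      (((Ioc M (M + N)).filter fun n => ((p : ℤ) ^ 2 ∣ W p n - l)).card : ℝ) ≤
        1 + 3 / 2 * (N : ℝ) ^ (2 / 3 : ℝ) := by
    intro M N h l
    refine le_trans ?_ (Pool.Agent.Q43.WP.point_real l p M N hp h)
    refine Nat.cast_le.2 (card_le_card fun n hn => ?_)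
    rw [mem_filter] at hn ⊢
    have h1 := mem_Ioc.1 hn.1
    exact ⟨hn.1, hW n (by omega) (by omega) l hn.2⟩
  refine ⟨?_, ?_, fun M N h => ⟨hcount M N h, ?_⟩⟩
  · have e : W p 1 - 1 = -((((p - 1).factorial + 1 : ℕ) : ℤ)) := by
      unfold W
      push_cast
      simp
      ring
    rw [e, dvd_neg]
    constructor
    · intro h
      have : ((p ^ 2 : ℕ) : ℤ) ∣ (((p - 1).factorial + 1 : ℕ) : ℤ) := by exact_mod_cast h
      simpa using this
    · intro h
      have : ((p ^ 2 : ℕ) : ℤ) ∣ (((p - 1).factorial + 1 : ℕ) : ℤ) := by push_cast at h ⊢; exact h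
      exact_mod_cast this
  · -- Wilson's theorem
    intro n hn hnp
    have : Fact p.Prime := ⟨hp⟩
    induction n, hn using Nat.le_induction with
    | base =>
      have h1 := ZMod.wilsons_lemma p
      rw [← ZMod.intCast_zmod_eq_zero_iff_dvd]
      unfold W
      push_cast
      simp [h1]
    | succ n hn ih =>
      have ih' := ih (by omega)
      have e : W p (n + 1) * (p - n : ℕ) = -(W p n) * n := by
        unfold W
        have h1 : (n + 1 - 1).factorial = n * (n - 1).factorial := by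
          rw [Nat.add_sub_cancel]
          obtain ⟨k, rfl⟩ : ∃ k, n = k + 1 := ⟨n - 1, by omega⟩
          rw [Nat.factorial_succ, Nat.add_sub_cancel]
        have h2 : (p - n).factorial = (p - n) * (p - (n + 1)).factorial := by
          obtain ⟨k, hk⟩ : ∃ k, p - n = k + 1 := ⟨p - n - 1, by omega⟩
          rw [hk, Nat.factorial_succ]
          congr 2
          omega
        rw [h1, h2, pow_succ]
        push_cast
        ring
      have hpi : Prime (p : ℤ) := Nat.prime_iff_prime_int.1 hp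
      have h3 : (p : ℤ) ∣ (W p (n + 1) - 1) * n := by
        have h4 : (W p (n + 1) - 1) * n = W p (n + 1) * p - W p (n + 1) * (p - n : ℕ) - n := by
          rw [Nat.cast_sub (by omega)]
          ring
        rw [h4, e]
        have h5 : W p (n + 1) * p - -(W p n) * n - n = p * W p (n + 1) + (W p n - 1) * n := by ring
        rw [h5]
        exact dvd_add (dvd_mul_right _ _) (Dvd.dvd.mul_right ih' _)
      rcases hpi.dvd_or_dvd h3 with h6 | h6
      · exact h6
      · have h7 : p ∣ n := by exact_mod_cast h6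
        have := Nat.le_of_dvd (by omega) h7
        omega
  · -- the number of values
    have hpos : (0 : ℝ) < 1 + 3 / 2 * (N : ℝ) ^ (2 / 3 : ℝ) := by positivity
    rw [div_le_iff₀ hpos]
    have h1 : (Ioc M (M + N)).card = ∑ v ∈ (Ioc M (M + N)).image fun n => ((W p n : ℤ) : ZMod (p ^ 2)),
        ((Ioc M (M + N)).filter fun n => ((W p n : ℤ) : ZMod (p ^ 2)) = v).card :=
      Finset.card_eq_sum_card_image _ _
    rw [Nat.card_Ioc, Nat.add_sub_cancel_left] at h1
    have h2 : (N : ℝ) = ∑ v ∈ (Ioc M (M + N)).image fun n => ((W p n : ℤ) : ZMod (p ^ 2)),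
        (((Ioc M (M + N)).filter fun n => ((W p n : ℤ) : ZMod (p ^ 2)) = v).card : ℝ) := by
      exact_mod_cast h1
    have h3 : ∀ v ∈ (Ioc M (M + N)).image fun n => ((W p n : ℤ) : ZMod (p ^ 2)),
        (((Ioc M (M + N)).filter fun n => ((W p n : ℤ) : ZMod (p ^ 2)) = v).card : ℝ) ≤
          1 + 3 / 2 * (N : ℝ) ^ (2 / 3 : ℝ) := by
      intro v hv
      obtain ⟨n0, _, rfl⟩ := mem_image.1 hv
      refine le_trans ?_ (hcount M N h (W p n0))
      refine Nat.cast_le.2 (card_le_card fun n hn => ?_)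
      rw [mem_filter] at hn ⊢
      refine ⟨hn.1, ?_⟩
      have h4 := (ZMod.intCast_eq_intCast_iff_dvd_sub _ _ _).1 hn.2
      have h5 : ((p : ℤ)) ^ 2 ∣ W p n0 - W p n := by
        have : (((p ^ 2 : ℕ)) : ℤ) = (p : ℤ) ^ 2 := by push_cast; ring
        rwa [this] at h4
      rw [← neg_sub, dvd_neg]
      exact h5
    calc (N : ℝ) = _ := h2
      _ ≤ ∑ _v ∈ (Ioc M (M + N)).image fun n => ((W p n : ℤ) : ZMod (p ^ 2)),
          (1 + 3 / 2 * (N : ℝ) ^ (2 / 3 : ℝ)) := Finset.sum_le_sum h3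
      _ = _ := by rw [Finset.sum_const, nsmul_eq_mul]

end Pool.Agent.Results.MP_de5eaa_nt.OrdersOfOnePrime
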