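import Mathlib
import Pool.Agent.Q43.WP.Main

set_option autoImplicit false

/-!
# Wilson primes of order `n`, on average over the order
-/

namespace Pool.Agent.Results.MP_de5eaa_nt.OrdersOnAverage

open Finset

/-- `p` is a Wilson prime of order `n`: `p` is prime, `1 ≤ n ≤ p` and
`(n - 1)! (p - n)! ≡ (-1) ^ n` modulo `p ^ 2`. -/
def WilsonOrder (n p : ℕ) : Prop := p.Prime ∧ 1 ≤ n ∧ n ≤ p ∧
  ((p : ℤ) ^ 2 ∣ ((n - 1).factorial * (p - n).factorial : ℤ) - (-1) ^ n)

/-- the number of the Wilson primes of order `n` in `(x, 2 x]` -/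
noncomputable def count (x n : ℕ) : ℕ := by
  classical exact ((Ioc x (2 * x)).filter fun p => WilsonOrder n p).card

lemma iff_ord (n p : ℕ) : WilsonOrder n p ↔ Pool.Agent.Q43.WP.IsOrd 1 n p := by
  unfold WilsonOrder Pool.Agent.Q43.WP.IsOrd
  rw [mul_one]

/-- (1) The Wilson primes of order one are the Wilson primes.  (2) For the orders `n` in ANY interval
`(M, M + N]` of `[1, x]` the sum of the numbers of the Wilson primes of order `n` in `(x, 2 x]` is at most
the number of all primes of `(x, 2 x]` plus `4 N (x / log x) ^ (2 / 3)`.  (3) So the average over the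
interval is at most `7 (x / log x) ^ (2 / 3)` as soon as `N ≥ (x / log x) ^ (1 / 3)`. -/
theorem result :
    (∀ p : ℕ, WilsonOrder 1 p ↔ p.Prime ∧ p ^ 2 ∣ (p - 1).factorial + 1) ∧
    (∀ x M N : ℕ, 2 ≤ x → M + N ≤ x →
      (∑ n ∈ Ioc M (M + N), (count x n : ℝ)) ≤
        (((Ioc x (2 * x)).filter Nat.Prime).card : ℝ) + 4 * N * (x / Real.log x) ^ (2 / 3 : ℝ)) ∧
    ∀ x M N : ℕ, 2 ≤ x → M + N ≤ x → (x / Real.log x) ^ (1 / 3 : ℝ) ≤ N →
      (∑ n ∈ Ioc M (M + N), (count x n : ℝ)) ≤ 7 * N * (x / Real.log x) ^ (2 / 3 : ℝ) := by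
  classical
  have h2 : ∀ x M N : ℕ, 2 ≤ x → M + N ≤ x →
      (∑ n ∈ Ioc M (M + N), (count x n : ℝ)) ≤
        (((Ioc x (2 * x)).filter Nat.Prime).card : ℝ) + 4 * N * (x / Real.log x) ^ (2 / 3 : ℝ) := by
    intro x M N hx h
    have e : ∀ n : ℕ, count x n = ((Ioc x (2 * x)).filter fun p =>
        Pool.Agent.Q43.WP.IsOrd 1 n p).card := by
      intro n
      unfold count
      congr 1
      ext p
      simp only [mem_filter, iff_ord]
    simp only [e]
    exact Pool.Agent.Q43.WP.avg_real x M N hx h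
  refine ⟨fun p => ?_, h2, fun x M N hx h hN => ?_⟩
  · unfold WilsonOrder
    constructor
    · rintro ⟨hp, _, _, h⟩
      refine ⟨hp, ?_⟩
      have : ((p ^ 2 : ℕ) : ℤ) ∣ (((p - 1).factorial + 1 : ℕ) : ℤ) := by
        push_cast
        simpa using h
      exact_mod_cast this
    · rintro ⟨hp, h⟩
      refine ⟨hp, le_rfl, hp.one_le, ?_⟩
      have : ((p ^ 2 : ℕ) : ℤ) ∣ (((p - 1).factorial + 1 : ℕ) : ℤ) := by exact_mod_cast h
      push_cast at this
      simpa using this
  · have hx0 : (0 : ℝ) < x := by exact_mod_cast (by omega : 0 < x)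
    have hx1 : (1 : ℝ) < x := by exact_mod_cast (by omega : 1 < x)
    have hlog : 0 < Real.log x := Real.log_pos hx1
    have hz0 : 0 < (x : ℝ) / Real.log x := by positivity
    have h3 := Pool.Agent.Q43.WP.primes_le hx
    have h4 : (x : ℝ) / Real.log x = (x / Real.log x) ^ (1 / 3 : ℝ) * (x / Real.log x) ^ (2 / 3 : ℝ) := by
      rw [← Real.rpow_add hz0]
      norm_num
    have h5 : (x : ℝ) / Real.log x ≤ N * (x / Real.log x) ^ (2 / 3 : ℝ) := by
      calc (x : ℝ) / Real.log x = (x / Real.log x) ^ (1 / 3 : ℝ) * (x / Real.log x) ^ (2 / 3 : ℝ) := h4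
        _ ≤ _ := by gcongr
    have h6 := h2 x M N hx h
    linarith

end Pool.Agent.Results.MP_de5eaa_nt.OrdersOnAverage
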